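import Pool.Agent.H78.S.Targets

/-!
# MP_9d0bb7_lc, board sgt_modules, row COO
-/

set_option autoImplicit false

open Set Pool.Agent.H77.BC Pool.Agent.H78.S
open scoped Pointwise

namespace Pool.Agent.H56.S

theorem pf_COO (hINC : T_INC) (hHIC : T_HIC) (hCTB : T_CTB) (hLNK : T_LNK) : T_COO := by
  intro M U G S _ _ _ _ n x hF hN i hi L
  haveI := hF.dg
  haveI := hF.ful
  have hact := hF.act
  obtain ⟨hC, -, -⟩ := hHIC U x hF i hi
  obtain ⟨-, -, -, -, hDT, -, hTH, -, hHX, -, -, -, -, -, -, -⟩ := hCTB U hact _ _ _ _ _ hC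
  haveI : Finite (LL U G x i) := (hN.fin i hi).to_subtype
  obtain ⟨N, ⟨e⟩⟩ := Finite.exists_equiv_fin (LL U G x i)
  let E' : Fin N → Set (S × S) := fun j => (e.symm j : Set (S × S))
  have hE' : Function.Injective E' := fun a b h => e.symm.injective (Subtype.ext h)
  let L' : ∀ j, LB U (HH U G x 0 i) (XX U G x i) (x i) (x 0) (E' j) :=
    fun j => L (e.symm j).1 (e.symm j).2
  -- separation of points
  have hsep : ∀ y ∈ XX U G x i, ∀ z ∈ XX U G x i,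
      (∀ E (h : E ∈ LL U G x i), (L E h).f y = (L E h).f z) → y = z := by
    intro y hy z hz h
    apply hN.inj i hi y hy z hz
    intro E hE
    rw [(hLNK U hact _ _ _ _ _ hC E (L E hE)).2.2.2.2.2.2.2.1]
    exact ⟨hy, hz, h E hE⟩
  have hmem : ∀ t ∈ TT U G x 0, t • x 0 ∈ XX U G x i := fun t ht => hHX _ (hTH ht) _ hC.mem
  have h2 : ∀ u : ∀ E (h : E ∈ LL U G x i), (L E h).K, (∀ E h, u E h ≠ 0) →
      ∃ t, t ∈ TT U G x 0 ∧ ∀ E h, (L E h).f (t • x 0) = u E h := by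
    intro u hu
    obtain ⟨t, ht, ht2⟩ := (hINC.2 U hact _ _ _ _ _ hC N E' hE' L').2
      (fun j => u (e.symm j).1 (e.symm j).2) (fun j => hu _ _)
    refine ⟨t, ht, ?_⟩
    have h3 : ∀ p : LL U G x i, (L p.1 p.2).f (t • x 0) = u p.1 p.2 := by
      intro p
      obtain ⟨j, rfl⟩ := e.symm.surjective p
      exact ht2 j
    exact fun E h => h3 ⟨E, h⟩
  refine ⟨?_, ?_, ?_, ?_⟩
  · intro u
    obtain ⟨y, hy, hy2⟩ := (hINC.2 U hact _ _ _ _ _ hC N E' hE' L').1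
      (fun j => u (e.symm j).1 (e.symm j).2)
    have h3 : ∀ p : LL U G x i, (L p.1 p.2).f y = u p.1 p.2 := by
      intro p
      obtain ⟨j, rfl⟩ := e.symm.surjective p
      exact hy2 j
    refine ⟨y, ⟨hy, fun E h => h3 ⟨E, h⟩⟩, ?_⟩
    rintro z ⟨hz, hz2⟩
    apply hsep z hz y hy
    intro E h
    rw [hz2 E h]
    exact (h3 ⟨E, h⟩).symm
  · intro u hu
    obtain ⟨t, ht, ht2⟩ := h2 u hu
    refine ⟨t, ⟨ht, ht2⟩, ?_⟩
    rintro s ⟨hs, hs2⟩
    have h3 : s • x 0 = t • x 0 := by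
      apply hsep _ (hmem s hs) _ (hmem t ht)
      intro E h
      rw [hs2, ht2]
    have h4 : t⁻¹ * s ∈ Fx (TT U G x 0) (x 0) := by
      refine Subgroup.mem_inf.2 ⟨Subgroup.mul_mem _ (Subgroup.inv_mem _ ht) hs, ?_⟩
      rw [MulAction.mem_stabilizer_iff, mul_smul, h3, inv_smul_smul]
    rw [hN.fx, Subgroup.mem_bot] at h4
    exact (inv_mul_eq_one.1 h4).symm
  · intro u v hu
    obtain ⟨g, hg, hg2⟩ := hINC.1 U hact _ _ _ _ _ hC N E' hE' L'
      (fun j => u (e.symm j).1 (e.symm j).2) (fun j => v (e.symm j).1 (e.symm j).2)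
      (fun j => hu _ _)
    refine ⟨g, hg, ?_⟩
    have h3 : ∀ p : LL U G x i, ∀ y ∈ XX U G x i, (L p.1 p.2).f (g • y) =
        u p.1 p.2 * (L p.1 p.2).f y + v p.1 p.2 := by
      intro p
      obtain ⟨j, rfl⟩ := e.symm.surjective p
      exact hg2 j
    exact fun E h => h3 ⟨E, h⟩
  · intro y
    constructor
    · rintro ⟨t, ht, rfl⟩
      refine ⟨hmem t ht, fun E h => ?_⟩
      exact ((hLNK U hact _ _ _ _ _ hC E (L E h)).1 t ht).1
    · rintro ⟨hy, hy2⟩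
      obtain ⟨t, ht, ht2⟩ := h2 (fun E h => (L E h).f y) hy2
      exact ⟨t, ht, (hsep _ (hmem t ht) _ hy ht2).symm⟩

end Pool.Agent.H56.S
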