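import Pool.Agent.H78.S.Targets

/-!
# MP_9d0bb7_lc, board sgt_modules, row FAI
-/

set_option autoImplicit false

open Set Pool.Agent.H77.BC Pool.Agent.H78.S
open scoped Pointwise

namespace Pool.Agent.H56.S

theorem pf_FAI (hP21 : T_P21) (hHIC : T_HIC) : T_FAI := by
  intro M U G S _ _ _ _ n x hF hI hN g σ hg hσ i hi hσi hk
  have hne : (LL U G x i).Nonempty := by
    have h1 := hN.card i hi
    have h2 := hF.pos
    exact Set.nonempty_of_ncard_ne_zero (by omega)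
  have key : ∀ E ∈ LL U G x i, ∀ y ∈ XX U G x i, g • y ∈ XX U G x i ∧ (g • y, y) ∈ E := by
    intro E hE y hy
    have hE' : Nonempty (LF U G x i E) := hE
    obtain ⟨L⟩ := hE'
    obtain ⟨-, h2, -⟩ := hP21 U x hF hI g σ hg hσ i hi hσi E hE (hk E hE)
    obtain ⟨h3, h4⟩ := h2 L y hy
    refine ⟨h3, ?_⟩
    rw [L.eq]
    exact ⟨h3, hy, h4⟩
  apply (hHIC U x hF i hi).2.2
  intro y hy
  obtain ⟨E0, hE0⟩ := hne
  exact hN.inj i hi _ (key E0 hE0 y hy).1 _ hy (fun E hE => (key E hE y hy).2)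

end Pool.Agent.H56.S
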