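import Pool.Agent.H78.S.Targets

/-!
# MP_9d0bb7_lc, board sgt_modules, row LFI
-/

set_option autoImplicit false

open Set Pool.Agent.H77.BC Pool.Agent.H78.S
open scoped Pointwise

namespace Pool.Agent.H56.S

theorem lfi_fx {M : Type} (U : RU M) {G S : Type} [Group G] [MulAction G S] [Cod M G] [Cod M S]
    [DG U G] [Ful U S] (hact : DFn U (fun p : G × S => p.1 • p.2)) (T : Subgroup G) (e : S)
    (hT : U.D (T : Set G)) : U.D (Fx T e : Set G) := by
  have h1 : DFn U (fun g : G => g • e) :=
    DFn_comp (f := fun g : G => (g, e)) (g := fun p : G × S => p.1 • p.2) hact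
      (DFn_pair DFn_id (DFn_const e))
  have h2 : U.D {g : G | g • e = e} := D_eqf h1 (DFn_const e)
  have h3 : (Fx T e : Set G) = (T : Set G) ∩ {g : G | g • e = e} := by
    ext g
    simp [Fx, MulAction.mem_stabilizer_iff]
  rw [h3]
  exact D_inter hT h2

theorem pf_LFI (hLRK : T_LRK) (hINC : T_INC) (hCTB : T_CTB) (hLNK : T_LNK) : T_LFI := by
  classical
  intro M U G S _ _ _ _ _ _ hact H X T o e hC
  obtain ⟨-, -, -, -, hDT, -, hTH, -, hHX, -, -, -, -, hRT, -, -⟩ := hCTB U hact H X T o e hC
  have hDF : U.D (Fx T e : Set G) := lfi_fx U hact T e hDT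
  -- finite sets of lines
  have hfin : ∀ F : Finset (Set (S × S)), (F : Set (Set (S × S))) ⊆ Lines U H X o e →
      F.card ≤ U.R X := by
    intro F hF
    let E : Fin F.card → Set (S × S) := fun j => (F.equivFin.symm j : Set (S × S))
    have hE : Function.Injective E := fun a b h =>
      F.equivFin.symm.injective (Subtype.ext h)
    have hL : ∀ j, E j ∈ Lines U H X o e := fun j => hF (F.equivFin.symm j).2
    obtain ⟨hD, hR⟩ := hLRK U hact H X T o e hC F.card E hE hL
    let L : ∀ j, LB U H X o e (E j) := fun j => Classical.choice (hL j)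
    have hlnk := fun j => hLNK U hact H X T o e hC (E j) (L j)
    have h1 : U.R (Fx T e : Set G) ≤ U.R ((T ⊓ ⨅ j, kap T (E j) : Subgroup G) : Set G) := by
      refine (l_RKA U).mono hDF hD ⟨1, (Fx T e).one_mem⟩ ?_
      intro g hg
      have hg' : g ∈ Fx T e := hg
      show g ∈ T ⊓ ⨅ j, kap T (E j)
      rw [Subgroup.mem_inf, Subgroup.mem_iInf]
      exact ⟨hg'.1, fun j => (hlnk j).2.2.2.1 hg'⟩
    have h2 : F.card ≤ ∑ j, (U.R (T : Set G) - U.R (kap T (E j) : Set G)) := by
      have h3 : ∀ j ∈ (Finset.univ : Finset (Fin F.card)), 1 ≤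
          U.R (T : Set G) - U.R (kap T (E j) : Set G) := by
        intro j _
        have := (hlnk j).2.2.2.2.2.2.1
        omega
      have h4 := Finset.card_nsmul_le_sum Finset.univ _ 1 h3
      rw [Finset.card_univ, Fintype.card_fin, smul_eq_mul, mul_one] at h4
      exact h4
    omega
  have hF : (Lines U H X o e).Finite := by
    by_contra hinf
    obtain ⟨F, hF1, hF2⟩ := Set.Infinite.exists_subset_card_eq hinf (U.R X + 1)
    have := hfin F hF1
    omega
  refine ⟨hF, ?_, ?_⟩
  · rw [Set.ncard_eq_toFinset_card _ hF]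
    exact hfin _ (by rw [Set.Finite.coe_toFinset])
  · intro E hE E' hE' hk
    by_contra hne
    have hinj : Function.Injective (![E, E'] : Fin 2 → Set (S × S)) := by
      intro a b h
      fin_cases a <;> fin_cases b <;> simp_all
    have hmem : ∀ j : Fin 2, (![E, E'] : Fin 2 → Set (S × S)) j ∈ Lines U H X o e := by
      intro j
      fin_cases j
      · exact hE
      · exact hE'
    let L : ∀ j, LB U H X o e ((![E, E'] : Fin 2 → Set (S × S)) j) :=
      fun j => Classical.choice (hmem j)
    have hlnk := fun j => hLNK U hact H X T o e hC _ (L j)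
    have hex : ∀ j, ∃ c : (L j).K, c ≠ 0 ∧ c ≠ 1 := by
      intro j
      have := (L j).line.inf
      obtain ⟨c, hc⟩ := Infinite.exists_notMem_finset ({0, 1} : Finset (L j).K)
      simp only [Finset.mem_insert, Finset.mem_singleton, not_or] at hc
      exact ⟨c, hc⟩
    choose c hc using hex
    obtain ⟨s, hs, hs2⟩ := (hINC.2 U hact H X T o e hC 2 _ hinj L).2
      (fun j => if j = 0 then 1 else c j) (by
        intro j
        by_cases h : j = 0
        · simp [h]
        · simp only [h, if_false]
          exact (hc j).1)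
    have h0 : s ∈ kap T E := by
      have h := (hlnk 0).2.2.1 s
      exact h.2 ⟨hs, by rw [hs2 0]; simp⟩
    have h1 : s ∉ kap T E' := by
      intro h
      have h' := (((hlnk 1).2.2.1 s).1 h).2
      rw [hs2 1, if_neg (by decide)] at h'
      exact (hc 1).2 h'
    rw [hk] at h0
    exact h1 h0

end Pool.Agent.H56.S
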