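import Pool.Agent.H78.S.Targets

/-!
# MP_9d0bb7_lc, board sgt_modules, row LRK
-/

set_option autoImplicit false

open Set Pool.Agent.H77.BC Pool.Agent.H78.S
open scoped Pointwise

namespace Pool.Agent.H56.S

theorem pf_LRK (hINC : T_INC) (hCTB : T_CTB) (hLNK : T_LNK) (hIDX : T_IDX) : T_LRK := by
  intro M U G S _ _ _ _ _ _ hact H X T o e hC t
  obtain ⟨-, -, -, -, hDT, -, hTH, -, hHX, -, -, -, -, -, -, -⟩ := hCTB U hact H X T o e hC
  induction t with
  | zero =>
    intro E hE hL
    have h1 : (T ⊓ ⨅ j, kap T (E j)) = T := by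
      ext g
      simp
    rw [h1]
    refine ⟨hDT, ?_⟩
    simp
  | succ t ih =>
    intro E hE hL
    have hE' : Function.Injective (fun j : Fin t => E j.castSucc) :=
      fun a b h => Fin.castSucc_injective t (hE h)
    obtain ⟨hDA, hRA⟩ := ih (fun j => E j.castSucc) hE' (fun j => hL j.castSucc)
    set A : Subgroup G := T ⊓ ⨅ j : Fin t, kap T (E j.castSucc) with hA
    set B : Subgroup G := kap T (E (Fin.last t)) with hB
    let L : ∀ j, LB U H X o e (E j) := fun j => Classical.choice (hL j)
    have hlnk := fun j => hLNK U hact H X T o e hC (E j) (L j)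
    have hDB : U.D (B : Set G) := (hlnk (Fin.last t)).2.2.2.2.2.1
    have hRB : U.R (B : Set G) + 1 ≤ U.R (T : Set G) := (hlnk (Fin.last t)).2.2.2.2.2.2.1
    have hAB : (T ⊓ ⨅ j, kap T (E j)) = A ⊓ B := by
      ext g
      simp only [hA, hB, Subgroup.mem_inf, Subgroup.mem_iInf, Fin.forall_fin_succ']
      tauto
    have hAT : A ≤ T := inf_le_left
    have hBT : B ≤ T := inf_le_left
    have hprod : ∀ s ∈ T, ∃ a ∈ A, ∃ b ∈ B, s = a * b := by
      intro s hs
      have hs0 : (L (Fin.last t)).f (s • e) ≠ 0 := ((hlnk (Fin.last t)).1 s hs).1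
      obtain ⟨a, haT, ha⟩ := (hINC.2 U hact H X T o e hC (t + 1) E hE L).2
        (fun j => if h : j = Fin.last t then (h ▸ (L (Fin.last t)).f (s • e) : (L j).K) else 1)
        (by
          intro j
          by_cases h : j = Fin.last t
          · subst h
            simpa using hs0
          · simp [h])
      have haA : a ∈ A := by
        rw [hA, Subgroup.mem_inf, Subgroup.mem_iInf]
        refine ⟨haT, fun j => ?_⟩
        rw [(hlnk j.castSucc).2.2.1]
        refine ⟨haT, ?_⟩
        rw [ha j.castSucc, dif_neg (Fin.castSucc_lt_last j).ne]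
      have halast : (L (Fin.last t)).f (a • e) = (L (Fin.last t)).f (s • e) := by
        rw [ha (Fin.last t)]
        simp
      refine ⟨a, haA, a⁻¹ * s, ?_, by group⟩
      rw [hB, (hlnk (Fin.last t)).2.2.1]
      have h2 : a⁻¹ * s ∈ T := T.mul_mem (T.inv_mem haT) hs
      refine ⟨h2, ?_⟩
      have h3 : (a⁻¹ * s) • e ∈ X := hHX _ (hTH h2) _ hC.mem
      have h4 := ((hlnk (Fin.last t)).1 a haT).2 _ h3
      rw [smul_smul, mul_inv_cancel_left, halast] at h4
      have h5 : (L (Fin.last t)).f (s • e) * 1 =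
          (L (Fin.last t)).f (s • e) * (L (Fin.last t)).f ((a⁻¹ * s) • e) := by
        rw [mul_one]
        exact h4
      exact (mul_left_cancel₀ hs0 h5).symm
    have hidx := hIDX U T A B hDT hDA hDB hAT hBT hprod
    rw [hAB]
    refine ⟨?_, ?_⟩
    · rw [Subgroup.coe_inf]
      exact D_inter hDA hDB
    · rw [Fin.sum_univ_castSucc, ← hB]
      omega

end Pool.Agent.H56.S
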